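import Mathlib

/-!
# Complex measures, integration and convolution on a group

Basic facts about `MeasureTheory.ComplexMeasure` used for the measure algebra `M(G)`.
-/

set_option autoImplicit false

open MeasureTheory Filter Topology Set
open scoped ENNReal NNReal

namespace Pool.Agent.H61

/-- The complex number `∫ f dμ`, for a function `f : X → ℂ` and a complex measure `μ` on `X`. -/
noncomputable def cint {X : Type*} [MeasurableSpace X] (f : X → ℂ) (μ : ComplexMeasure X) : ℂ :=
  VectorMeasure.integral μ f (ContinuousLinearMap.mul ℝ ℂ)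

/-- The convolution of two complex measures on a group: the image of the product measure under
multiplication. -/
noncomputable def conv {G : Type*} [Group G] [MeasurableSpace G] (μ ν : ComplexMeasure G) :
    ComplexMeasure G :=
  (VectorMeasure.prod μ ν (ContinuousLinearMap.mul ℝ ℂ)).map (fun p : G × G => p.1 * p.2)

section basic

variable {X : Type*} [MeasurableSpace X]

/-- A complex measure has finite total variation. -/
instance isFiniteMeasure_variation (μ : ComplexMeasure X) : IsFiniteMeasure μ.variation := by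
  have hre : IsFiniteMeasure (ComplexMeasure.re μ).variation := by
    rw [← SignedMeasure.totalVariation_eq_variation]; infer_instance
  have him : IsFiniteMeasure (ComplexMeasure.im μ).variation := by
    rw [← SignedMeasure.totalVariation_eq_variation]; infer_instance
  have h : μ.variation ≤ (ComplexMeasure.re μ).variation + (ComplexMeasure.im μ).variation := by
    apply VectorMeasure.variation_le_of_forall_enorm_le
    intro E hE
    have h1 : ‖(μ E).re‖ₑ ≤ (ComplexMeasure.re μ).variation E :=
      (ComplexMeasure.re μ).enorm_measure_le_variation E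
    have h2 : ‖(μ E).im‖ₑ ≤ (ComplexMeasure.im μ).variation E :=
      (ComplexMeasure.im μ).enorm_measure_le_variation E
    rw [Measure.add_apply]
    refine le_trans ?_ (add_le_add h1 h2)
    have h3 : ‖μ E‖₊ ≤ ‖(μ E).re‖₊ + ‖(μ E).im‖₊ := by
      have := Complex.norm_le_abs_re_add_abs_im (μ E)
      rw [← NNReal.coe_le_coe]
      simpa using this
    simp only [enorm_eq_nnnorm]
    exact_mod_cast h3
  exact isFiniteMeasure_of_le _ h

/-- total mass of a complex measure -/
noncomputable def tv (μ : ComplexMeasure X) : ℝ := μ.variation.real univ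

lemma tv_nonneg (μ : ComplexMeasure X) : 0 ≤ tv μ := measureReal_nonneg

lemma integrable_of_bound {f : X → ℂ} (hf : Measurable f) {C : ℝ} (hC : ∀ x, ‖f x‖ ≤ C)
    (μ : ComplexMeasure X) : Integrable f μ.variation :=
  Integrable.of_bound hf.aestronglyMeasurable C (Eventually.of_forall hC)

lemma norm_cint_le (f : X → ℂ) {C : ℝ} (hC : ∀ x, ‖f x‖ ≤ C) (μ : ComplexMeasure X) :
    ‖cint f μ‖ ≤ C * tv μ := by
  have h := VectorMeasure.norm_integral_le_of_norm_le_const (μ := μ)
    (B := ContinuousLinearMap.mul ℝ ℂ) (f := f) (C := C) (Eventually.of_forall hC)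
  have hB : ‖ContinuousLinearMap.mul ℝ ℂ‖ = 1 := ContinuousLinearMap.opNorm_mul (𝕜 := ℝ) (R := ℂ)
  rw [hB, mul_one] at h
  exact h

lemma cint_add {f g : X → ℂ} {μ : ComplexMeasure X} (hf : Integrable f μ.variation)
    (hg : Integrable g μ.variation) : cint (fun x => f x + g x) μ = cint f μ + cint g μ :=
  VectorMeasure.integral_fun_add hf hg

lemma cint_sub {f g : X → ℂ} {μ : ComplexMeasure X} (hf : Integrable f μ.variation)
    (hg : Integrable g μ.variation) : cint (fun x => f x - g x) μ = cint f μ - cint g μ :=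
  VectorMeasure.integral_fun_sub hf hg

lemma cint_zero (μ : ComplexMeasure X) : cint (fun _ => 0) μ = 0 :=
  VectorMeasure.integral_zero

lemma cint_zero_measure (f : X → ℂ) : cint f (0 : ComplexMeasure X) = 0 :=
  VectorMeasure.integral_zero_vectorMeasure

lemma cint_const (c : ℂ) (μ : ComplexMeasure X) : cint (fun _ => c) μ = c * μ univ := by
  simp [cint, VectorMeasure.integral_const]

lemma cint_indicator (c : ℂ) {s : Set X} (hs : MeasurableSet s) (μ : ComplexMeasure X) :
    cint (s.indicator fun _ => c) μ = c * μ s := by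
  simp [cint, VectorMeasure.integral_indicator_const, hs]

lemma cint_add_measure {f : X → ℂ} {μ ν : ComplexMeasure X} (hμ : Integrable f μ.variation)
    (hν : Integrable f ν.variation) : cint f (μ + ν) = cint f μ + cint f ν :=
  VectorMeasure.integral_add_vectorMeasure hμ hν

lemma cint_dirac {f : X → ℂ} (hf : Measurable f) (a : X) (c : ℂ) :
    cint f (VectorMeasure.dirac a c) = f a * c := by
  simp [cint, VectorMeasure.integral_dirac' hf.stronglyMeasurable]

lemma cint_tendsto {f : ℕ → X → ℂ} {g : X → ℂ} {C : ℝ} (hf : ∀ n, Measurable (f n))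
    (hC : ∀ n x, ‖f n x‖ ≤ C) (h : ∀ x, Tendsto (fun n => f n x) atTop (𝓝 (g x)))
    (μ : ComplexMeasure X) : Tendsto (fun n => cint (f n) μ) atTop (𝓝 (cint g μ)) :=
  VectorMeasure.tendsto_integral_of_dominated_convergence (fun _ => C)
    (fun n => (hf n).aestronglyMeasurable) (integrable_const C)
    (fun n => Eventually.of_forall (hC n)) (Eventually.of_forall h)

/-- Induction principle for bounded measurable functions. -/
lemma bdd_induction {P : (X → ℂ) → Prop}
    (ind : ∀ (c : ℂ) (s : Set X), MeasurableSet s → P (s.indicator fun _ => c))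
    (add : ∀ f g : X → ℂ, Measurable f → Measurable g → (∃ C, ∀ x, ‖f x‖ ≤ C) →
      (∃ C, ∀ x, ‖g x‖ ≤ C) → P f → P g → P (fun x => f x + g x))
    (lim : ∀ (f : ℕ → X → ℂ) (g : X → ℂ) (C : ℝ), (∀ n, Measurable (f n)) → Measurable g →
      (∀ n x, ‖f n x‖ ≤ C) → (∀ x, Tendsto (fun n => f n x) atTop (𝓝 (g x))) →
      (∀ n, P (f n)) → P g)
    {f : X → ℂ} (hf : Measurable f) {C : ℝ} (hC : ∀ x, ‖f x‖ ≤ C) : P f := by
  have hC0 : ∀ x, ‖f x‖ ≤ max C 0 := fun x => (hC x).trans (le_max_left _ _)
  have hs : ∀ g : SimpleFunc X ℂ, P g := by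
    intro g
    induction g using SimpleFunc.induction with
    | const c hs => exact ind c _ hs
    | add hdisj hf hg =>
      exact add _ _ (SimpleFunc.measurable _) (SimpleFunc.measurable _)
        (SimpleFunc.exists_forall_norm_le _) (SimpleFunc.exists_forall_norm_le _) hf hg
  have hsm := hf.stronglyMeasurable
  refine lim (fun n => hsm.approxBounded (max C 0) n) f (max C 0)
    (fun n => SimpleFunc.measurable _) hf
    (fun n x => hsm.norm_approxBounded_le (le_max_right _ _) n x) ?_ (fun n => hs _)
  intro x
  exact hsm.tendsto_approxBounded_of_norm_le (hC0 x)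

lemma cint_smul (c : ℂ) {f : X → ℂ} (hf : Measurable f) {C : ℝ} (hC : ∀ x, ‖f x‖ ≤ C)
    (μ : ComplexMeasure X) : cint (fun x => c * f x) μ = c * cint f μ := by
  refine bdd_induction (P := fun f => cint (fun x => c * f x) μ = c * cint f μ) ?_ ?_ ?_ hf hC
  · intro d s hs
    have : (fun x => c * s.indicator (fun _ => d) x) = s.indicator (fun _ => c * d) := by
      ext x; by_cases hx : x ∈ s <;> simp [hx]
    rw [this, cint_indicator _ hs, cint_indicator _ hs, mul_assoc]
  · rintro f g hf hg ⟨C, hC⟩ ⟨D, hD⟩ h1 h2
    have hf' := integrable_of_bound hf hC μ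
    have hg' := integrable_of_bound hg hD μ
    simp_rw [mul_add]
    rw [cint_add (hf'.const_mul c) (hg'.const_mul c), h1, h2, cint_add hf' hg', mul_add]
  · intro f g C hf hg hC hlim hP
    have h1 := cint_tendsto hf hC hlim μ
    have h2 := cint_tendsto (f := fun n x => c * f n x) (g := fun x => c * g x) (C := ‖c‖ * C)
      (fun n => (hf n).const_mul c)
      (fun n x => by rw [norm_mul]; exact mul_le_mul_of_nonneg_left (hC n x) (norm_nonneg _))
      (fun x => (hlim x).const_mul c) μ
    refine tendsto_nhds_unique h2 ?_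
    simp_rw [hP]
    exact h1.const_mul c

lemma cint_smul_measure (c : ℂ) {f : X → ℂ} (hf : Measurable f) {C : ℝ} (hC : ∀ x, ‖f x‖ ≤ C)
    (μ : ComplexMeasure X) : cint f (c • μ) = c * cint f μ := by
  refine bdd_induction (P := fun f => cint f (c • μ) = c * cint f μ) ?_ ?_ ?_ hf hC
  · intro d s hs
    rw [cint_indicator _ hs, cint_indicator _ hs]
    simp [mul_left_comm]
  · rintro f g hf hg ⟨C, hC⟩ ⟨D, hD⟩ h1 h2
    rw [cint_add (integrable_of_bound hf hC _) (integrable_of_bound hg hD _), h1, h2,
      cint_add (integrable_of_bound hf hC _) (integrable_of_bound hg hD _), mul_add]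
  · intro f g C hf hg hC hlim hP
    refine tendsto_nhds_unique (cint_tendsto hf hC hlim (c • μ)) ?_
    simp_rw [hP]
    exact (cint_tendsto hf hC hlim μ).const_mul c

end basic

section prod

variable {X Y : Type*} [MeasurableSpace X] [MeasurableSpace Y]

/-- Fubini's theorem for the product of two complex measures and bounded measurable functions. -/
lemma cint_prod (μ : ComplexMeasure X) (ν : ComplexMeasure Y) {F : X × Y → ℂ}
    (hF : Measurable F) {C : ℝ} (hC : ∀ p, ‖F p‖ ≤ C) :
    Measurable (fun x => cint (fun y => F (x, y)) ν) ∧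
    cint F (VectorMeasure.prod μ ν (ContinuousLinearMap.mul ℝ ℂ)) =
      cint (fun x => cint (fun y => F (x, y)) ν) μ := by
  refine bdd_induction (P := fun F => Measurable (fun x => cint (fun y => F (x, y)) ν) ∧
    cint F (VectorMeasure.prod μ ν (ContinuousLinearMap.mul ℝ ℂ)) =
      cint (fun x => cint (fun y => F (x, y)) ν) μ) ?_ ?_ ?_ hF hC
  · intro c s hs
    have hm := (VectorMeasure.stronglyMeasurable_vectorMeasure_prodMk_left (ν := ν) hs).measurable
    have h1 : ∀ x, cint (fun y => s.indicator (fun _ => c) (x, y)) ν =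
        c * ν (Prod.mk x ⁻¹' s) := by
      intro x
      rw [← cint_indicator c (measurable_prodMk_left hs) ν]
      rfl
    simp_rw [h1]
    refine ⟨hm.const_mul c, ?_⟩
    rw [cint_indicator c hs, cint_smul c hm (C := ν.bound)
      (fun x => VectorMeasure.norm_apply_le_bound) μ,
      VectorMeasure.prod_apply_eq_integral hs]
    congr 1
    unfold cint
    congr 1
    ext x y
    simp
  · rintro f g hf hg ⟨C, hC⟩ ⟨D, hD⟩ ⟨h1, h1'⟩ ⟨h2, h2'⟩
    have e : ∀ x, cint (fun y => f (x, y) + g (x, y)) ν =
        cint (fun y => f (x, y)) ν + cint (fun y => g (x, y)) ν := fun x =>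
      cint_add (integrable_of_bound (hf.comp measurable_prodMk_left) (fun y => hC _) _)
        (integrable_of_bound (hg.comp measurable_prodMk_left) (fun y => hD _) _)
    simp_rw [e]
    refine ⟨h1.add h2, ?_⟩
    rw [cint_add (integrable_of_bound hf hC _) (integrable_of_bound hg hD _), h1', h2',
      cint_add (integrable_of_bound h1 (fun x => norm_cint_le _ (fun y => hC (x, y)) ν) _)
        (integrable_of_bound h2 (fun x => norm_cint_le _ (fun y => hD (x, y)) ν) _)]
  · intro f g C hf hg hC hlim hP
    have h1 : ∀ x, Tendsto (fun n => cint (fun y => f n (x, y)) ν) atTop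
        (𝓝 (cint (fun y => g (x, y)) ν)) := fun x =>
      cint_tendsto (fun n => (hf n).comp measurable_prodMk_left) (fun n y => hC n _)
        (fun y => hlim (x, y)) ν
    refine ⟨measurable_of_tendsto_metrizable (fun n => (hP n).1) (tendsto_pi_nhds.2 h1), ?_⟩
    refine tendsto_nhds_unique (cint_tendsto hf hC hlim _) ?_
    simp_rw [fun n => (hP n).2]
    exact cint_tendsto (fun n => (hP n).1)
      (fun n x => norm_cint_le _ (fun y => hC n (x, y)) ν) h1 μ

lemma cint_map (μ : ComplexMeasure X) {φ : X → Y} (hφ : Measurable φ) {f : Y → ℂ}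
    (hf : Measurable f) {C : ℝ} (hC : ∀ y, ‖f y‖ ≤ C) :
    cint f (μ.map φ) = cint (fun x => f (φ x)) μ :=
  VectorMeasure.integral_map hφ hf.aestronglyMeasurable
    (integrable_of_bound (hf.comp hφ) (fun x => hC (φ x)) μ)

lemma prod_swap (μ : ComplexMeasure X) (ν : ComplexMeasure Y) :
    VectorMeasure.prod ν μ (ContinuousLinearMap.mul ℝ ℂ) =
      (VectorMeasure.prod μ ν (ContinuousLinearMap.mul ℝ ℂ)).map Prod.swap := by
  apply VectorMeasure.prod_eq_of_forall_apply_prod
  intro s t hs ht
  rw [VectorMeasure.map_apply _ measurable_swap (hs.prod ht)]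
  simp [mul_comm]

/-- Exchange of the order of integration. -/
lemma cint_cint_swap (μ : ComplexMeasure X) (ν : ComplexMeasure Y) {F : X × Y → ℂ}
    (hF : Measurable F) {C : ℝ} (hC : ∀ p, ‖F p‖ ≤ C) :
    cint (fun x => cint (fun y => F (x, y)) ν) μ = cint (fun y => cint (fun x => F (x, y)) μ) ν := by
  rw [← (cint_prod μ ν hF hC).2]
  have h := (cint_prod ν μ (F := fun p => F p.swap) (hF.comp measurable_swap)
    (fun p => hC p.swap)).2
  have h2 : cint (fun p : Y × X => F p.swap)
      ((VectorMeasure.prod μ ν (ContinuousLinearMap.mul ℝ ℂ)).map Prod.swap) =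
      cint (fun p : X × Y => F p.swap.swap) _ :=
    cint_map _ measurable_swap (f := fun p => F p.swap) (hF.comp measurable_swap)
      (fun p => hC p.swap)
  rw [prod_swap μ ν, h2] at h
  simpa using h

end prod

section group

variable {G : Type*} [Group G] [MeasurableSpace G] [MeasurableMul₂ G]

lemma cint_conv (μ ν : ComplexMeasure G) {f : G → ℂ} (hf : Measurable f) {C : ℝ}
    (hC : ∀ x, ‖f x‖ ≤ C) :
    cint f (conv μ ν) = cint (fun x => cint (fun y => f (x * y)) ν) μ := by
  unfold conv
  rw [cint_map _ measurable_mul hf hC,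
    (cint_prod μ ν (F := fun p => f (p.1 * p.2)) (hf.comp measurable_mul) (fun p => hC _)).2]

/-- Two complex measures agreeing on all bounded measurable functions are equal. -/
lemma ext_cint {X : Type*} [MeasurableSpace X] {μ ν : ComplexMeasure X}
    (h : ∀ f : X → ℂ, Measurable f → (∀ x, ‖f x‖ ≤ 1) → cint f μ = cint f ν) : μ = ν := by
  ext s hs
  have := h (s.indicator fun _ => (1 : ℂ)) (measurable_const.indicator hs) (by
    intro x; by_cases hx : x ∈ s <;> simp [hx])
  simpa [cint_indicator _ hs] using this

lemma conv_dirac_one (μ : ComplexMeasure G) : conv μ (VectorMeasure.dirac 1 1) = μ := by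
  apply ext_cint
  intro f hf hC
  rw [cint_conv _ _ hf hC]
  have : ∀ x, cint (fun y => f (x * y)) (VectorMeasure.dirac 1 1) = f x := by
    intro x
    rw [cint_dirac (f := fun y => f (x * y)) (hf.comp (measurable_const_mul x))]
    simp
  simp_rw [this]

end group

/-- The complex measure attached to a finite positive measure. -/
noncomputable def toC {X : Type*} [MeasurableSpace X] (m : Measure X) [IsFiniteMeasure m] :
    ComplexMeasure X := SignedMeasure.toComplexMeasure m.toSignedMeasure 0

lemma cint_toC {X : Type*} [MeasurableSpace X] (m : Measure X) [IsFiniteMeasure m] {f : X → ℂ}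
    (hf : Measurable f) {C : ℝ} (hC : ∀ x, ‖f x‖ ≤ C) : cint f (toC m) = ∫ x, f x ∂m := by
  refine bdd_induction (P := fun f => cint f (toC m) = ∫ x, f x ∂m) ?_ ?_ ?_ hf hC
  · intro c s hs
    rw [cint_indicator _ hs, integral_indicator_const _ hs]
    simp [toC, SignedMeasure.toComplexMeasure_apply, Measure.toSignedMeasure_apply_measurable hs,
      Complex.ext_iff, mul_comm]
  · rintro f g hf hg ⟨C, hC⟩ ⟨D, hD⟩ h1 h2
    rw [cint_add (integrable_of_bound hf hC _) (integrable_of_bound hg hD _), h1, h2,
      integral_add (Integrable.of_bound hf.aestronglyMeasurable C (Eventually.of_forall hC))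
        (Integrable.of_bound hg.aestronglyMeasurable D (Eventually.of_forall hD))]
  · intro f g C hf hg hC hlim hP
    refine tendsto_nhds_unique (cint_tendsto hf hC hlim (toC m)) ?_
    simp_rw [hP]
    exact tendsto_integral_of_dominated_convergence (fun _ => C)
      (fun n => (hf n).aestronglyMeasurable) (integrable_const C)
      (fun n => Eventually.of_forall (hC n)) (Eventually.of_forall hlim)

/-! ### Ideals of the measure algebra -/

section ideals

variable {G : Type*} [Group G] [MeasurableSpace G]

/-- `J` is a left ideal of `M(G)`. -/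
def IsLeftIdeal (J : Submodule ℂ (ComplexMeasure G)) : Prop :=
  ∀ μ ν : ComplexMeasure G, ν ∈ J → conv μ ν ∈ J

/-- `J` is finitely generated as a left ideal of `M(G)`. -/
def IsFinGen (J : Submodule ℂ (ComplexMeasure G)) : Prop :=
  ∃ (n : ℕ) (σ : Fin n → ComplexMeasure G), (∀ i, σ i ∈ J) ∧
    ∀ μ ∈ J, ∃ ν : Fin n → ComplexMeasure G, μ = ∑ i, conv (ν i) (σ i)

/-- `J` is closed in the weak* topology `σ(M(G), C₀(G))`, the coarsest topology for which all
functionals `μ ↦ ∫ f dμ`, `f ∈ C₀(G)`, are continuous. -/
def IsWeakStarClosed [TopologicalSpace G] (J : Set (ComplexMeasure G)) : Prop :=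
  IsClosed[TopologicalSpace.induced (fun μ (f : ZeroAtInftyContinuousMap G ℂ) => cint f μ)
    Pi.topologicalSpace] J

end ideals

end Pool.Agent.H61
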