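import Mathlib

/-!
# A restricted product of finite symmetric groups
-/

set_option autoImplicit false

open MeasureTheory Filter Topology Set
open scoped ENNReal NNReal RestrictedProduct

namespace Pool.Agent.H61

/-- The symmetric group on `n + 2` points (as a discrete group). -/
def SymP (n : ℕ) : Type := Equiv.Perm (Fin (n + 2))

noncomputable instance (n : ℕ) : Group (SymP n) := inferInstanceAs (Group (Equiv.Perm (Fin (n + 2))))
noncomputable instance (n : ℕ) : Fintype (SymP n) :=
  inferInstanceAs (Fintype (Equiv.Perm (Fin (n + 2))))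
instance (n : ℕ) : TopologicalSpace (SymP n) := ⊥
instance (n : ℕ) : DiscreteTopology (SymP n) := ⟨rfl⟩

/-- The underlying permutation. -/
def SymP.ev {n : ℕ} (g : SymP n) : Equiv.Perm (Fin (n + 2)) := g

/-- The element of `SymP n` given by a permutation. -/
def SymP.of {n : ℕ} (g : Equiv.Perm (Fin (n + 2))) : SymP n := g

lemma SymP.ev_of {n : ℕ} (g : Equiv.Perm (Fin (n + 2))) (j : Fin (n + 2)) :
    (SymP.of g).ev j = g j := rfl
lemma SymP.ev_mul {n : ℕ} (g h : SymP n) (j : Fin (n + 2)) : (g * h).ev j = g.ev (h.ev j) := rfl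
lemma SymP.ev_one {n : ℕ} (j : Fin (n + 2)) : (1 : SymP n).ev j = j := rfl

/-- The stabiliser of the point `0`. -/
noncomputable def StabP (n : ℕ) : Subgroup (SymP n) :=
  MulAction.stabilizer (Equiv.Perm (Fin (n + 2))) (0 : Fin (n + 2))

lemma mem_StabP {n : ℕ} {g : SymP n} : g ∈ StabP n ↔ g.ev 0 = 0 :=
  Iff.rfl

/-- value of the spherical function, as a function of a point -/
noncomputable def psi (n : ℕ) (j : Fin (n + 2)) : ℝ := if j = 0 then 1 else -(1 / (n + 1))

lemma sum_psi (n : ℕ) : ∑ j, psi n j = 0 := by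
  rw [Fin.sum_univ_succ]
  have h : ∀ i : Fin (n + 1), psi n i.succ = -(1 / (n + 1)) := by
    intro i; simp [psi, Fin.succ_ne_zero]
  simp_rw [h]
  simp only [psi, if_true, Finset.sum_const, Finset.card_univ, Fintype.card_fin, nsmul_eq_mul]
  have : ((n : ℝ) + 1) ≠ 0 := by positivity
  push_cast
  field_simp
  ring

/-- The local spherical function. -/
noncomputable def phi (n : ℕ) (g : SymP n) : ℝ := psi n (g.ev 0)

lemma phi_of_mem {n : ℕ} {g : SymP n} (h : g ∈ StabP n) : phi n g = 1 := by
  rw [mem_StabP] at h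
  simp [phi, psi, h]

lemma phi_of_not_mem {n : ℕ} {g : SymP n} (h : g ∉ StabP n) : phi n g = -(1 / (n + 1)) := by
  rw [mem_StabP] at h
  simp [phi, psi, h]

lemma abs_phi_le (n : ℕ) (g : SymP n) : |phi n g| ≤ 1 := by
  by_cases h : g ∈ StabP n
  · simp [phi_of_mem h]
  · rw [phi_of_not_mem h, abs_neg, abs_of_nonneg (by positivity)]
    rw [div_le_one (by positivity)]
    linarith [Nat.cast_nonneg (α := ℝ) n]

lemma sum_psi_ev (n : ℕ) (g : SymP n) : ∑ j, psi n (g.ev j) = 0 := by
  rw [← sum_psi n]
  exact Equiv.sum_comp g.ev (psi n)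

lemma sum_phi (n : ℕ) (x : SymP n) : ∑ g, phi n (x * g) = 0 := by
  have h1 : ∀ j : Fin (n + 2), ∑ g : SymP n, psi n ((x * g).ev j) = ∑ g, phi n (x * g) := by
    intro j
    have h0 := Equiv.sum_comp (Equiv.mulRight (SymP.of (Equiv.swap 0 j) : SymP n))
      (fun g => psi n ((x * g).ev j))
    rw [← h0]
    apply Finset.sum_congr rfl
    intro g _
    simp only [phi, Equiv.coe_mulRight]
    congr 1
    rw [← mul_assoc, SymP.ev_mul]
    congr 1
    exact Equiv.swap_apply_right 0 j
  have h2 : ∑ j : Fin (n + 2), ∑ g : SymP n, psi n ((x * g).ev j) = 0 := by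
    rw [Finset.sum_comm]
    exact Finset.sum_eq_zero (fun g _ => sum_psi_ev n (x * g))
  simp_rw [h1] at h2
  simp only [Finset.sum_const, Finset.card_univ, Fintype.card_fin, nsmul_eq_mul] at h2
  have : ((n + 2 : ℕ) : ℝ) ≠ 0 := by positivity
  exact (mul_eq_zero.1 h2).resolve_left this

noncomputable instance (n : ℕ) : Fintype (StabP n) := Fintype.ofFinite _

lemma swap_mem {n : ℕ} {i j : Fin (n + 2)} (hi : i ≠ 0) (hj : j ≠ 0) :
    (SymP.of (Equiv.swap i j) : SymP n) ∈ StabP n := by
  rw [mem_StabP]
  exact Equiv.swap_apply_of_ne_of_ne hi.symm hj.symm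

lemma spherical_local (n : ℕ) (x y : SymP n) :
    ∑ k : StabP n, phi n (x * k * y) = Fintype.card (StabP n) * (phi n x * phi n y) := by
  by_cases hy : y ∈ StabP n
  · have : ∀ k : StabP n, phi n (x * k * y) = phi n x := by
      intro k
      simp only [phi]
      congr 1
      rw [SymP.ev_mul, mem_StabP.1 hy, SymP.ev_mul, mem_StabP.1 k.2]
    simp_rw [this, phi_of_mem hy]
    simp
  · have hy0 : y.ev 0 ≠ 0 := fun h => hy (mem_StabP.2 h)
    have h1 : ∀ j : Fin (n + 2), j ≠ 0 → ∑ k : StabP n, psi n ((x * (k : SymP n)).ev j) =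
        ∑ k : StabP n, phi n (x * k * y) := by
      intro j hj
      have h0 := Equiv.sum_comp (Equiv.mulRight (⟨(SymP.of (Equiv.swap (y.ev 0) j) : SymP n),
        swap_mem hy0 hj⟩ : StabP n)) (fun k => psi n ((x * (k : SymP n)).ev j))
      rw [← h0]
      apply Finset.sum_congr rfl
      intro k _
      simp only [phi, Equiv.coe_mulRight, Subgroup.coe_mul]
      congr 1
      rw [← mul_assoc, SymP.ev_mul, SymP.ev_mul _ y]
      congr 1
      exact Equiv.swap_apply_right (y.ev 0) j
    have h2 : ∑ j ∈ Finset.univ.erase (0 : Fin (n + 2)),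
        ∑ k : StabP n, psi n ((x * (k : SymP n)).ev j) =
        Fintype.card (StabP n) * (- phi n x) := by
      rw [Finset.sum_comm]
      have h3 : ∀ k : StabP n, ∑ j ∈ Finset.univ.erase (0 : Fin (n + 2)),
          psi n ((x * (k : SymP n)).ev j) = - phi n x := by
        intro k
        have := Finset.add_sum_erase (Finset.univ : Finset (Fin (n + 2)))
          (fun j => psi n ((x * (k : SymP n)).ev j)) (Finset.mem_univ 0)
        rw [sum_psi_ev] at this
        have h4 : psi n ((x * (k : SymP n)).ev 0) = phi n x := by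
          simp only [phi]
          rw [SymP.ev_mul, mem_StabP.1 k.2]
        rw [h4] at this
        linarith
      simp_rw [h3]
      simp
    rw [Finset.sum_congr rfl (fun j hj => h1 j (Finset.ne_of_mem_erase hj))] at h2
    simp only [Finset.sum_const, nsmul_eq_mul, Finset.card_erase_of_mem (Finset.mem_univ _),
      Finset.card_univ, Fintype.card_fin] at h2
    rw [phi_of_not_mem hy]
    have hn : ((n : ℝ) + 1) ≠ 0 := by positivity
    have h5 : ((n + 2 - 1 : ℕ) : ℝ) = n + 1 := by push_cast [Nat.add_sub_cancel]; norm_num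
    rw [h5] at h2
    field_simp
    linarith

/-- The restricted product. -/
abbrev RG : Type := Πʳ n, [SymP n, StabP n]

instance : Fact (∀ n, IsOpen ((StabP n : Subgroup (SymP n)) : Set (SymP n))) :=
  ⟨fun _ => isOpen_discrete _⟩

/-- The open pieces: all coordinates from `N` on lie in the stabiliser. -/
def piece (N : ℕ) : Set RG := {g | ∀ n, N ≤ n → g n ∈ StabP n}

lemma cofinite_le (N : ℕ) : cofinite ≤ 𝓟 {n : ℕ | N ≤ n} := by
  rw [le_principal_iff, mem_cofinite]
  have : {n : ℕ | N ≤ n}ᶜ = Set.Iio N := by ext; simp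
  rw [this]
  exact Set.finite_Iio N

lemma range_inclusion_piece (N : ℕ) :
    Set.range (RestrictedProduct.inclusion SymP (fun n => (StabP n : Set (SymP n)))
      (cofinite_le N)) = piece N := by
  rw [RestrictedProduct.range_inclusion]
  ext g
  simp [piece]

lemma isOpen_piece (N : ℕ) : IsOpen (piece N) := by
  rw [← range_inclusion_piece]
  exact (RestrictedProduct.isOpenEmbedding_inclusion_principal (fun _ => isOpen_discrete _)
    (cofinite_le N)).isOpen_range

lemma isCompact_piece (N : ℕ) : IsCompact (piece N) := by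
  rw [← range_inclusion_piece]
  have hc : CompactSpace (Πʳ n, [SymP n, (StabP n : Set (SymP n))]_[𝓟 {n : ℕ | N ≤ n}]) := by
    have he := RestrictedProduct.isEmbedding_coe_of_principal
      (R := SymP) (A := fun n => (StabP n : Set (SymP n))) (S := {n : ℕ | N ≤ n})
    have hr : IsClosed (Set.range ((↑) : (Πʳ n, [SymP n, (StabP n : Set (SymP n))]_[𝓟 {n : ℕ | N ≤ n}]) → Π n, SymP n)) := by
      rw [RestrictedProduct.range_coe_principal]
      exact isClosed_set_pi (fun _ _ => isClosed_discrete _)
    exact (IsClosedEmbedding.mk he hr).compactSpace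
  exact isCompact_range (RestrictedProduct.continuous_inclusion _)

lemma exists_piece (g : RG) : ∃ N, g ∈ piece N := by
  have h := g.eventually
  rw [eventually_cofinite] at h
  obtain ⟨N, hN⟩ := h.bddAbove
  refine ⟨N + 1, fun n hn => ?_⟩
  by_contra hc
  have := hN hc
  omega

instance : SecondCountableTopology RG := by
  have h : ∀ N : ℕ, SecondCountableTopology (piece N) := by
    intro N
    have he := RestrictedProduct.isEmbedding_coe_of_principal
      (R := SymP) (A := fun n => (StabP n : Set (SymP n))) (S := {n : ℕ | N ≤ n})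
    have h1 : SecondCountableTopology
        (Πʳ n, [SymP n, (StabP n : Set (SymP n))]_[𝓟 {n : ℕ | N ≤ n}]) :=
      he.secondCountableTopology
    have h2 := (RestrictedProduct.isOpenEmbedding_inclusion_principal
      (R := SymP) (A := fun n => (StabP n : Set (SymP n))) (fun _ => isOpen_discrete _)
      (cofinite_le N))
    have h3 := h2.isEmbedding.toHomeomorph
    rw [range_inclusion_piece] at h3
    exact h3.symm.isEmbedding.secondCountableTopology
  have hcov : ⋃ N, piece N = univ := by
    ext g; simpa using exists_piece g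
  exact TopologicalSpace.secondCountableTopology_of_countable_cover (fun N => isOpen_piece N) hcov

/-- The product of local functions over all coordinates. -/
noncomputable def PP (f : ∀ n, SymP n → ℝ) (g : RG) : ℝ := ∏ᶠ n, f n (g n)

lemma PP_eq {f : ∀ n, SymP n → ℝ} (hf : ∀ n, ∀ k ∈ StabP n, f n k = 1) {g : RG} {N : ℕ}
    (hg : g ∈ piece N) : PP f g = ∏ n ∈ Finset.range N, f n (g n) := by
  unfold PP
  apply finprod_eq_prod_of_mulSupport_subset
  intro n hn
  simp only [Function.mem_mulSupport, ne_eq] at hn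
  simp only [Finset.coe_range, Set.mem_Iio]
  by_contra hc
  exact hn (hf n _ (hg n (not_lt.1 hc)))

lemma piece_mono {M N : ℕ} (h : M ≤ N) : piece M ⊆ piece N :=
  fun _ hg n hn => hg n (h.trans hn)

lemma mul_mem_piece {g h : RG} {N : ℕ} (hg : g ∈ piece N) (hh : h ∈ piece N) :
    g * h ∈ piece N := by
  intro n hn
  rw [RestrictedProduct.mul_apply]
  exact (StabP n).mul_mem (hg n hn) (hh n hn)

lemma continuous_PP {f : ∀ n, SymP n → ℝ} (hf : ∀ n, ∀ k ∈ StabP n, f n k = 1) :
    Continuous (PP f) := by
  rw [continuous_iff_continuousAt]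
  intro g
  obtain ⟨N, hN⟩ := exists_piece g
  have h1 : PP f =ᶠ[𝓝 g] fun g => ∏ n ∈ Finset.range N, f n (g n) :=
    Filter.eventuallyEq_of_mem ((isOpen_piece N).mem_nhds hN) (fun h hh => PP_eq hf hh)
  refine ContinuousAt.congr ?_ h1.symm
  apply Continuous.continuousAt
  refine continuous_finsetProd _ (fun n _ => ?_)
  exact continuous_of_discreteTopology.comp (RestrictedProduct.continuous_eval n)

lemma abs_PP_le {f : ∀ n, SymP n → ℝ} (hf : ∀ n, ∀ k ∈ StabP n, f n k = 1)
    (hb : ∀ n g, |f n g| ≤ 1) (g : RG) : |PP f g| ≤ 1 := by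
  obtain ⟨N, hN⟩ := exists_piece g
  rw [PP_eq hf hN, Finset.abs_prod]
  exact Finset.prod_le_one (fun _ _ => abs_nonneg _) (fun n _ => hb n _)

lemma phi_one (n : ℕ) (k : SymP n) (hk : k ∈ StabP n) : phi n k = 1 := phi_of_mem hk

lemma PP_phi_small {N : ℕ} {g : RG} (hg : g ∉ piece N) : |PP phi g| ≤ 1 / (N + 1) := by
  simp only [piece, mem_ofPred_eq, not_forall] at hg
  obtain ⟨n, hn, hgn⟩ := hg
  obtain ⟨M, hM⟩ := exists_piece g
  have hnM : n < M := by
    by_contra hc
    exact hgn (hM n (not_lt.1 hc))
  rw [PP_eq phi_one hM, Finset.abs_prod,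
    ← Finset.mul_prod_erase _ _ (Finset.mem_range.2 hnM), phi_of_not_mem hgn]
  have h1 : ∏ x ∈ (Finset.range M).erase n, |phi x (g x)| ≤ 1 :=
    Finset.prod_le_one (fun _ _ => abs_nonneg _) (fun n _ => abs_phi_le n _)
  have h0 : 0 ≤ ∏ x ∈ (Finset.range M).erase n, |phi x (g x)| :=
    Finset.prod_nonneg (fun _ _ => abs_nonneg _)
  rw [abs_neg, abs_of_nonneg (by positivity : (0 : ℝ) ≤ 1 / (n + 1))]
  calc (1 : ℝ) / (n + 1) * ∏ x ∈ (Finset.range M).erase n, |phi x (g x)|
      ≤ 1 / (n + 1) * 1 := by gcongr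
    _ ≤ 1 / (N + 1) := by
        rw [mul_one]
        have : (N : ℝ) ≤ n := by exact_mod_cast hn
        gcongr

lemma PP_one {f : ∀ n, SymP n → ℝ} (hf : ∀ n, ∀ k ∈ StabP n, f n k = 1) : PP f 1 = 1 := by
  have : (1 : RG) ∈ piece 0 := fun n _ => by
    rw [RestrictedProduct.one_apply]; exact one_mem _
  rw [PP_eq hf this]; simp

/-- the element of `RG` with a single nontrivial coordinate -/
noncomputable def sing (m : ℕ) (g : SymP m) : RG :=
  RestrictedProduct.mulSingle (fun n => StabP n) m g

lemma sing_same (m : ℕ) (g : SymP m) : sing m g m = g :=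
  RestrictedProduct.mulSingle_eq_same _ _ _

lemma sing_ne {m n : ℕ} (g : SymP m) (h : n ≠ m) : sing m g n = 1 :=
  RestrictedProduct.mulSingle_eq_of_ne _ _ h

lemma sing_mem_piece {m N : ℕ} (g : SymP m) (h : m < N) : sing m g ∈ piece N := by
  intro n hn
  rw [sing_ne g (by omega)]
  exact one_mem _

/-- Averaging over one full coordinate kills the spherical function. -/
lemma sum_PP_sing {f : ∀ n, SymP n → ℝ} (hf : ∀ n, ∀ k ∈ StabP n, f n k = 1) (m : ℕ)
    (hm : f m = phi m) (h : RG) : ∑ g : SymP m, PP f (h * sing m g) = 0 := by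
  obtain ⟨N, hN⟩ := exists_piece h
  have hN' : h ∈ piece (max N (m + 1)) := piece_mono (le_max_left _ _) hN
  have hm' : m < max N (m + 1) := lt_of_lt_of_le (Nat.lt_succ_self m) (le_max_right _ _)
  have h1 : ∀ g : SymP m, PP f (h * sing m g) = phi m (h m * g) *
      ∏ n ∈ (Finset.range (max N (m + 1))).erase m, f n (h n) := by
    intro g
    rw [PP_eq hf (mul_mem_piece hN' (sing_mem_piece g hm')),
      ← Finset.mul_prod_erase _ _ (Finset.mem_range.2 hm')]
    congr 1
    · rw [RestrictedProduct.mul_apply, sing_same, hm]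
    · apply Finset.prod_congr rfl
      intro n hn
      rw [RestrictedProduct.mul_apply, sing_ne g (Finset.ne_of_mem_erase hn), mul_one]
  simp_rw [h1]
  rw [← Finset.sum_mul, sum_phi, zero_mul]

/-- The spherical function with the factor number `m` removed. -/
noncomputable def phiDel (m : ℕ) : ∀ n, SymP n → ℝ := fun n g => if n = m then 1 else phi n g

lemma phiDel_one (m n : ℕ) (k : SymP n) (hk : k ∈ StabP n) : phiDel m n k = 1 := by
  unfold phiDel
  split_ifs
  · rfl
  · exact phi_of_mem hk

lemma abs_phiDel_le (m n : ℕ) (g : SymP n) : |phiDel m n g| ≤ 1 := by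
  unfold phiDel
  split_ifs
  · simp
  · exact abs_phi_le n g

lemma PP_phiDel_sing_same (m : ℕ) (g : SymP m) : PP (phiDel m) (sing m g) = 1 := by
  rw [PP_eq (phiDel_one m) (sing_mem_piece g (Nat.lt_succ_self m))]
  apply Finset.prod_eq_one
  intro n _
  by_cases h : n = m
  · simp [phiDel, h]
  · rw [sing_ne g h]
    exact phiDel_one m n _ (one_mem _)

lemma sum_PP_phiDel_sing {m l : ℕ} (h : l ≠ m) : ∑ g : SymP l, PP (phiDel m) (sing l g) = 0 := by
  have := sum_PP_sing (phiDel_one m) l (by ext g; simp [phiDel, h]) 1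
  simpa using this

lemma PP_phiDel_mul (m : ℕ) (x y : RG) (hy : y m ∈ StabP m) :
    PP (phiDel m) (x * y) = PP phi (sing m (x m)⁻¹ * x * y) := by
  obtain ⟨N, hN⟩ := exists_piece x
  obtain ⟨M, hM⟩ := exists_piece y
  set L := max (max N M) (m + 1) with hL
  have hx : x ∈ piece L := piece_mono ((le_max_left _ _).trans (le_max_left _ _)) hN
  have hy' : y ∈ piece L := piece_mono ((le_max_right _ _).trans (le_max_left _ _)) hM
  have hm : m < L := lt_of_lt_of_le (Nat.lt_succ_self m) (le_max_right _ _)
  rw [PP_eq (phiDel_one m) (mul_mem_piece hx hy'),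
    PP_eq phi_one (mul_mem_piece (mul_mem_piece (sing_mem_piece _ hm) hx) hy')]
  apply Finset.prod_congr rfl
  intro n _
  simp only [RestrictedProduct.mul_apply]
  by_cases h : n = m
  · subst h
    rw [sing_same, inv_mul_cancel, one_mul]
    simp [phiDel, phi_of_mem hy]
  · rw [sing_ne _ h, one_mul]
    simp [phiDel, h]

/-! ### Measures -/

instance (n : ℕ) : MeasurableSpace (SymP n) := ⊤
instance (n : ℕ) : DiscreteMeasurableSpace (SymP n) := ⟨fun _ => trivial⟩
instance : MeasurableSpace RG := borel RG
instance : BorelSpace RG := ⟨rfl⟩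

/-- The uniform probability measure on the stabiliser. -/
noncomputable def unifK (n : ℕ) : Measure (StabP n) :=
  ((Fintype.card (StabP n) : ℝ≥0∞)⁻¹) • Measure.count

instance (n : ℕ) : DiscreteMeasurableSpace (StabP n) := inferInstance

instance (n : ℕ) : IsProbabilityMeasure (unifK n) := by
  refine ⟨?_⟩
  unfold unifK
  rw [Measure.smul_apply, Measure.count_univ, smul_eq_mul]
  simp only [ENat.card_eq_coe_fintype_card]
  exact ENNReal.inv_mul_cancel (by simp [Fintype.card_ne_zero]) (by simp)

lemma integral_unifK (n : ℕ) (f : StabP n → ℝ) :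
    ∫ k, f k ∂(unifK n) = (Fintype.card (StabP n) : ℝ)⁻¹ * ∑ k, f k := by
  unfold unifK
  rw [integral_smul_measure, integral_count]
  simp

/-- The product probability measure on the compact group `∏ StabP n`. -/
noncomputable def prodK : Measure (∀ n, StabP n) := Measure.infinitePi unifK

instance : IsProbabilityMeasure prodK := by unfold prodK; infer_instance

/-- The embedding of the compact group `∏ StabP n`. -/
def embK : (∀ n, StabP n) → RG :=
  RestrictedProduct.structureMap SymP (fun n => (StabP n : Set (SymP n))) cofinite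

lemma embK_apply (k : ∀ n, StabP n) (n : ℕ) : embK k n = k n := rfl

lemma embK_mem (k : ∀ n, StabP n) (N : ℕ) : embK k ∈ piece N := fun n _ => (k n).2

instance (n : ℕ) : BorelSpace (StabP n) := by
  refine ⟨?_⟩
  rw [borel_eq_top_of_discrete]
  ext s
  exact ⟨fun _ => trivial, fun _ => MeasurableSet.of_discrete⟩

lemma continuous_embK : Continuous embK :=
  (RestrictedProduct.isEmbedding_structureMap (R := SymP)
    (A := fun n => (StabP n : Set (SymP n)))).continuous

lemma measurable_embK : Measurable embK := continuous_embK.measurable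

/-- The spherical identity. -/
lemma spherical (x y : RG) :
    ∫ k, PP phi (x * embK k * y) ∂prodK = PP phi x * PP phi y := by
  obtain ⟨N, hN⟩ := exists_piece x
  obtain ⟨M, hM⟩ := exists_piece y
  set L := max N M with hL
  have hx : x ∈ piece L := piece_mono (le_max_left _ _) hN
  have hy : y ∈ piece L := piece_mono (le_max_right _ _) hM
  have h1 : ∀ k : (∀ n, StabP n), PP phi (x * embK k * y) =
      (fun z : (∀ i : Finset.range L, StabP i) => ∏ i : Finset.range L, phi i (x i * z i * y i))
        ((Finset.range L).restrict k) := by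
    intro k
    rw [PP_eq phi_one (mul_mem_piece (mul_mem_piece hx (embK_mem k L)) hy)]
    rw [← Finset.prod_coe_sort]
    rfl
  rw [integral_congr_ae (ae_of_all _ h1)]
  unfold prodK
  have h3 := integral_restrict_infinitePi (μ := unifK) (s := Finset.range L)
    (f := fun z : (∀ i : Finset.range L, StabP i) =>
      ∏ i : Finset.range L, phi i (x i * z i * y i))
    (measurable_of_finite _).aestronglyMeasurable
  rw [h3, integral_fintype_prod_eq_prod (fun (i : Finset.range L) (z : StabP i) =>
    phi i (x i * z * y i))]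
  have h2 : ∀ i : Finset.range L, ∫ z, phi i (x i * z * y i) ∂(unifK i) =
      phi i (x i) * phi i (y i) := by
    intro i
    rw [integral_unifK, spherical_local]
    have : (Fintype.card (StabP i) : ℝ) ≠ 0 := by exact_mod_cast Fintype.card_ne_zero
    field_simp
  simp_rw [h2]
  rw [Finset.prod_mul_distrib, PP_eq phi_one hx, PP_eq phi_one hy,
    ← Finset.prod_coe_sort (Finset.range L) (fun n => phi n (x n)),
    ← Finset.prod_coe_sort (Finset.range L) (fun n => phi n (y n))]

/-- The uniform probability measure on the `m`-th symmetric group, seen in `RG`. -/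
noncomputable def unifP (m : ℕ) : Measure RG :=
  ((Fintype.card (SymP m) : ℝ≥0∞)⁻¹) • ∑ g : SymP m, Measure.dirac (sing m g)

instance (m : ℕ) : IsProbabilityMeasure (unifP m) := by
  refine ⟨?_⟩
  unfold unifP
  rw [Measure.smul_apply, Measure.finsetSum_apply]
  simp only [measure_univ, Finset.sum_const, Finset.card_univ, nsmul_eq_mul, mul_one, smul_eq_mul]
  exact ENNReal.inv_mul_cancel (by simp [Fintype.card_ne_zero]) (by simp)

lemma integral_unifP (m : ℕ) {f : RG → ℝ} (hf : Continuous f) :
    ∫ x, f x ∂(unifP m) = (Fintype.card (SymP m) : ℝ)⁻¹ * ∑ g : SymP m, f (sing m g) := by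
  unfold unifP
  rw [integral_smul_measure, integral_finsetSum_measure]
  · simp [integral_dirac' _ _ hf.stronglyMeasurable]
  · intro g _
    exact integrable_dirac' hf.stronglyMeasurable (by simp)

end Pool.Agent.H61
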