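import Mathlib
import Pool.Agent.H61.MeasAlg
import Pool.Agent.H61.RGroup

/-!
# A weak*-closed maximal left ideal of a measure algebra that is not finitely generated
-/

set_option autoImplicit false

open MeasureTheory Filter Topology Set
open scoped ENNReal NNReal RestrictedProduct

namespace Pool.Agent.H61

/-- The (complex valued) spherical function. -/
noncomputable def Phi (x : RG) : ℂ := ((PP phi x : ℝ) : ℂ)

/-- The spherical function with one factor removed. -/
noncomputable def PhiD (m : ℕ) (x : RG) : ℂ := ((PP (phiDel m) x : ℝ) : ℂ)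

lemma continuous_Phi : Continuous Phi := Complex.continuous_ofReal.comp (continuous_PP phi_one)

lemma continuous_PhiD (m : ℕ) : Continuous (PhiD m) :=
  Complex.continuous_ofReal.comp (continuous_PP (phiDel_one m))

lemma norm_Phi_le (x : RG) : ‖Phi x‖ ≤ 1 := by
  unfold Phi
  rw [Complex.norm_real]
  exact abs_PP_le phi_one abs_phi_le x

lemma norm_PhiD_le (m : ℕ) (x : RG) : ‖PhiD m x‖ ≤ 1 := by
  unfold PhiD
  rw [Complex.norm_real]
  exact abs_PP_le (phiDel_one m) (abs_phiDel_le m) x

lemma measurable_Phi_mul (g : RG) : Measurable (fun x => Phi (g * x)) :=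
  (continuous_Phi.comp (continuous_const_mul g)).measurable

lemma measurable_PhiD_mul (m : ℕ) (g : RG) : Measurable (fun x => PhiD m (g * x)) :=
  ((continuous_PhiD m).comp (continuous_const_mul g)).measurable

/-- The ideal. -/
noncomputable def JPhi : Submodule ℂ (ComplexMeasure RG) where
  carrier := {μ | ∀ g, cint (fun x => Phi (g * x)) μ = 0}
  add_mem' := by
    intro μ ν hμ hν g
    rw [cint_add_measure (integrable_of_bound (measurable_Phi_mul g) (fun x => norm_Phi_le _) _)
      (integrable_of_bound (measurable_Phi_mul g) (fun x => norm_Phi_le _) _), hμ g, hν g,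
      add_zero]
  zero_mem' := fun g => cint_zero_measure _
  smul_mem' := by
    intro c μ hμ g
    rw [cint_smul_measure c (measurable_Phi_mul g) (fun x => norm_Phi_le _), hμ g, mul_zero]

lemma mem_JPhi {μ : ComplexMeasure RG} : μ ∈ JPhi ↔ ∀ g, cint (fun x => Phi (g * x)) μ = 0 :=
  Iff.rfl

lemma isLeftIdeal_JPhi : IsLeftIdeal JPhi := by
  intro μ ν hν g
  rw [cint_conv _ _ (measurable_Phi_mul g) (fun x => norm_Phi_le _)]
  have : ∀ x, cint (fun y => Phi (g * (x * y))) ν = 0 := by
    intro x
    simp_rw [← mul_assoc]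
    exact hν (g * x)
  simp_rw [this]
  exact cint_zero μ

/-- translates of the spherical function vanish at infinity -/
noncomputable def PhiC0 (g : RG) : ZeroAtInftyContinuousMap RG ℂ where
  toFun x := Phi (g * x)
  continuous_toFun := continuous_Phi.comp (continuous_const_mul g)
  zero_at_infty' := by
    rw [Metric.tendsto_nhds]
    intro ε hε
    obtain ⟨N, hN⟩ := exists_nat_one_div_lt hε
    have hK : IsCompact ((fun x => g⁻¹ * x) '' piece N) :=
      (isCompact_piece N).image (continuous_const_mul g⁻¹)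
    filter_upwards [hK.compl_mem_cocompact] with x hx
    rw [dist_zero_right]
    have hx' : g * x ∉ piece N := by
      intro h
      exact hx ⟨g * x, h, by simp⟩
    refine lt_of_le_of_lt ?_ hN
    change ‖((PP phi (g * x) : ℝ) : ℂ)‖ ≤ _
    rw [Complex.norm_real]
    exact PP_phi_small hx'

lemma isWeakStarClosed_JPhi : IsWeakStarClosed (JPhi : Set (ComplexMeasure RG)) := by
  unfold IsWeakStarClosed
  let _ : TopologicalSpace (ComplexMeasure RG) :=
    TopologicalSpace.induced (fun μ (f : ZeroAtInftyContinuousMap RG ℂ) => cint f μ)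
      Pi.topologicalSpace
  have hJ : (JPhi : Set (ComplexMeasure RG)) =
      ⋂ g : RG, (fun μ (f : ZeroAtInftyContinuousMap RG ℂ) => cint f μ) ⁻¹'
        {F | F (PhiC0 g) = 0} := by
    ext μ
    simp only [SetLike.mem_coe, mem_JPhi, mem_iInter, mem_preimage, mem_ofPred_eq]
    rfl
  rw [hJ]
  refine isClosed_iInter (fun g => ?_)
  exact IsClosed.preimage continuous_induced_dom (isClosed_singleton.preimage (continuous_apply _))

lemma dirac_notMem : (VectorMeasure.dirac 1 1 : ComplexMeasure RG) ∉ JPhi := by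
  intro h
  have h1 := h 1
  rw [cint_dirac (measurable_Phi_mul 1)] at h1
  simp [Phi, PP_one phi_one] at h1

/-- the idempotent measure -/
noncomputable def eK : Measure RG := prodK.map embK

instance : IsProbabilityMeasure eK := Measure.isProbabilityMeasure_map measurable_embK.aemeasurable

lemma cint_eK (h y : RG) : cint (fun x => Phi (h * x * y)) (toC eK) = Phi h * Phi y := by
  have hc : Continuous (fun x : RG => Phi (h * x * y)) :=
    continuous_Phi.comp ((continuous_const_mul h).mul continuous_const)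
  rw [cint_toC eK hc.measurable (fun x => norm_Phi_le _)]
  unfold eK
  rw [integral_map measurable_embK.aemeasurable hc.aestronglyMeasurable]
  unfold Phi
  have h1 : ∫ k, ((PP phi (h * embK k * y) : ℝ) : ℂ) ∂prodK =
      ((∫ k, PP phi (h * embK k * y) ∂prodK : ℝ) : ℂ) := integral_ofReal
  rw [h1, spherical]
  push_cast
  rfl

lemma maximal_JPhi (J' : Submodule ℂ (ComplexMeasure RG)) (hJ' : IsLeftIdeal J')
    (hlt : JPhi < J') : J' = ⊤ := by
  obtain ⟨hle, μ, hμ', hμ⟩ := SetLike.lt_iff_le_and_exists.1 hlt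
  rw [mem_JPhi] at hμ
  push Not at hμ
  obtain ⟨g, hg⟩ := hμ
  set c := cint (fun x => Phi (g * x)) μ with hc
  set ρ := conv (toC eK) (conv (VectorMeasure.dirac g 1) μ) with hρ
  have hρ' : ρ ∈ J' := hJ' _ _ (hJ' _ _ hμ')
  have key : ∀ h, cint (fun x => Phi (h * x)) ρ = Phi h * c := by
    intro h
    rw [hρ, cint_conv _ _ (measurable_Phi_mul h) (fun x => norm_Phi_le _)]
    have h1 : ∀ x, cint (fun y => Phi (h * (x * y))) (conv (VectorMeasure.dirac g 1) μ) =
        cint (fun y => Phi (h * (x * (g * y)))) μ := by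
      intro x
      have hm : Measurable (fun y => Phi (h * (x * y))) := by
        simp_rw [← mul_assoc]; exact measurable_Phi_mul _
      rw [cint_conv _ _ hm (fun y => norm_Phi_le _)]
      have hm2 : Measurable (fun p : RG × RG => Phi (h * (x * (p.1 * p.2)))) :=
        hm.comp measurable_mul
      rw [cint_dirac (cint_prod μ μ hm2 (fun p => norm_Phi_le _)).1]
      simp
    simp_rw [h1]
    have hc2 : Continuous (fun p : RG × RG => Phi (h * (p.1 * (g * p.2)))) :=
      continuous_Phi.comp (continuous_const.mul (continuous_fst.mul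
        (continuous_const.mul continuous_snd)))
    rw [cint_cint_swap (F := fun p : RG × RG => Phi (h * (p.1 * (g * p.2)))) _ _ hc2.measurable
      (fun p => norm_Phi_le _)]
    have h2 : ∀ y, cint (fun x => Phi (h * (x * (g * y)))) (toC eK) = Phi h * Phi (g * y) := by
      intro y
      rw [← cint_eK]
      simp_rw [mul_assoc]
    simp_rw [h2]
    rw [cint_smul _ (measurable_Phi_mul g) (fun x => norm_Phi_le _)]
  have hτ : ρ - c • VectorMeasure.dirac 1 1 ∈ JPhi := by
    rw [mem_JPhi]
    intro h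
    have hs : ρ - c • (VectorMeasure.dirac 1 1 : ComplexMeasure RG) =
        ρ + (-c) • (VectorMeasure.dirac 1 1 : ComplexMeasure RG) := by
      ext s hs
      simp [sub_eq_add_neg]
    rw [hs,
      cint_add_measure (integrable_of_bound (measurable_Phi_mul h) (fun x => norm_Phi_le _) _)
        (integrable_of_bound (measurable_Phi_mul h) (fun x => norm_Phi_le _) _),
      cint_smul_measure _ (measurable_Phi_mul h) (fun x => norm_Phi_le _), key,
      cint_dirac (measurable_Phi_mul h)]
    simp [mul_comm]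
  have hδ : (VectorMeasure.dirac 1 1 : ComplexMeasure RG) ∈ J' := by
    have h1 : c • (VectorMeasure.dirac 1 1 : ComplexMeasure RG) ∈ J' := by
      have := J'.sub_mem hρ' (hle hτ)
      simpa using this
    have := J'.smul_mem c⁻¹ h1
    rwa [smul_smul, inv_mul_cancel₀ hg, one_smul] at this
  rw [eq_top_iff]
  intro ν _
  rw [← conv_dirac_one ν]
  exact hJ' _ _ hδ

/-! ### Not finitely generated -/

lemma unifP_mem (m : ℕ) : toC (unifP m) ∈ JPhi := by
  intro g
  rw [cint_toC _ (measurable_Phi_mul g) (fun x => norm_Phi_le _)]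
  have : ∫ x, Phi (g * x) ∂(unifP m) = ((∫ x, PP phi (g * x) ∂(unifP m) : ℝ) : ℂ) := by
    unfold Phi
    exact integral_ofReal
  rw [this, integral_unifP m (f := fun x => PP phi (g * x))
    ((continuous_PP phi_one).comp (continuous_const_mul g)),
    sum_PP_sing phi_one m rfl g]
  simp

lemma integral_PhiD_unifP (m l : ℕ) :
    ∫ x, PhiD m x ∂(unifP l) = if l = m then 1 else 0 := by
  have : ∫ x, PhiD m x ∂(unifP l) = ((∫ x, PP (phiDel m) x ∂(unifP l) : ℝ) : ℂ) := by
    unfold PhiD
    exact integral_ofReal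
  rw [this, integral_unifP l (continuous_PP (phiDel_one m))]
  split_ifs with h
  · subst h
    simp_rw [PP_phiDel_sing_same]
    have : (Fintype.card (SymP l) : ℝ) ≠ 0 := by exact_mod_cast Fintype.card_ne_zero
    simp [this]
  · rw [sum_PP_phiDel_sing h]
    simp

lemma measurableSet_piece (N : ℕ) : MeasurableSet (piece N) := (isOpen_piece N).measurableSet

lemma tendsto_compl_piece (μ : Measure RG) [IsFiniteMeasure μ] :
    Tendsto (fun m => μ.real (piece m)ᶜ) atTop (𝓝 0) := by
  have h1 : Tendsto (fun m => μ (piece m)ᶜ) atTop (𝓝 (μ (⋂ m, (piece m)ᶜ))) := by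
    apply tendsto_measure_iInter_atTop
    · exact fun m => (measurableSet_piece m).compl.nullMeasurableSet
    · intro a b hab
      exact compl_subset_compl.2 (piece_mono hab)
    · exact ⟨0, measure_ne_top _ _⟩
  have h2 : ⋂ m, (piece m)ᶜ = ∅ := by
    ext g
    simp only [mem_iInter, mem_compl_iff, mem_empty_iff_false, iff_false, not_forall, not_not]
    exact exists_piece g
  rw [h2, measure_empty] at h1
  exact (ENNReal.tendsto_toReal ENNReal.zero_ne_top).comp h1

lemma norm_cint_le_integral {X : Type*} [MeasurableSpace X] (f : X → ℂ) (μ : ComplexMeasure X) :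
    ‖cint f μ‖ ≤ ∫ x, ‖f x‖ ∂μ.variation := by
  have h := VectorMeasure.norm_integral_le_integral_norm (μ := μ)
    (B := ContinuousLinearMap.mul ℝ ℂ) (f := f)
  have hB : ‖ContinuousLinearMap.mul ℝ ℂ‖ = 1 := ContinuousLinearMap.opNorm_mul (𝕜 := ℝ) (R := ℂ)
  rw [hB, one_mul] at h
  exact h

lemma norm_cint_PhiD_le {σ : ComplexMeasure RG} (hσ : σ ∈ JPhi) (m : ℕ) (x : RG) :
    ‖cint (fun y => PhiD m (x * y)) σ‖ ≤ 2 * σ.variation.real (piece m)ᶜ := by
  have h0 := hσ (sing m (x m)⁻¹ * x)
  have i1 := integrable_of_bound (measurable_PhiD_mul m x) (fun y => norm_PhiD_le m _) σ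
  have i2 := integrable_of_bound (measurable_Phi_mul (sing m (x m)⁻¹ * x))
    (fun y => norm_Phi_le _) σ
  have h1 : cint (fun y => PhiD m (x * y)) σ =
      cint (fun y => PhiD m (x * y) - Phi (sing m (x m)⁻¹ * x * y)) σ := by
    rw [cint_sub i1 i2, h0, sub_zero]
  rw [h1]
  refine (norm_cint_le_integral _ σ).trans ?_
  have h2 : ∀ y, ‖PhiD m (x * y) - Phi (sing m (x m)⁻¹ * x * y)‖ ≤
      ((piece m)ᶜ).indicator (fun _ => (2 : ℝ)) y := by
    intro y
    by_cases hy : y ∈ piece m
    · rw [indicator_of_notMem (by simpa using hy)]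
      have : PhiD m (x * y) = Phi (sing m (x m)⁻¹ * x * y) := by
        unfold PhiD Phi
        rw [PP_phiDel_mul m x y (hy m le_rfl)]
      rw [this, sub_self, norm_zero]
    · rw [indicator_of_mem (by simpa using hy)]
      refine (norm_sub_le _ _).trans ?_
      have := norm_PhiD_le m (x * y)
      have := norm_Phi_le (sing m (x m)⁻¹ * x * y)
      linarith
  refine (integral_mono (i1.sub i2).norm ?_ h2).trans ?_
  · exact (integrable_const (2 : ℝ)).indicator (measurableSet_piece m).compl
  · rw [integral_indicator_const _ (measurableSet_piece m).compl]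
    simp [mul_comm]

lemma cint_finset_sum {ι : Type*} (s : Finset ι) (μ : ι → ComplexMeasure RG) {f : RG → ℂ}
    (hf : Measurable f) {C : ℝ} (hC : ∀ x, ‖f x‖ ≤ C) :
    cint f (∑ i ∈ s, μ i) = ∑ i ∈ s, cint f (μ i) := by
  classical
  induction s using Finset.induction_on with
  | empty => simpa using cint_zero_measure f
  | insert a s ha ih =>
    rw [Finset.sum_insert ha, Finset.sum_insert ha,
      cint_add_measure (integrable_of_bound hf hC _) (integrable_of_bound hf hC _), ih]

/-- The gliding hump measure. -/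
noncomputable def hump (n : ℕ → ℕ) : Measure RG :=
  Measure.sum (fun j => ENNReal.ofReal ((1 / 2) ^ j) • unifP (n j))

instance (n : ℕ → ℕ) : IsFiniteMeasure (hump n) := by
  refine ⟨?_⟩
  unfold hump
  rw [Measure.sum_apply _ MeasurableSet.univ]
  simp only [Measure.smul_apply, measure_univ, smul_eq_mul, mul_one]
  rw [← ENNReal.ofReal_tsum_of_nonneg (fun j => by positivity)
    (summable_geometric_of_lt_one (by norm_num) (by norm_num))]
  exact ENNReal.ofReal_lt_top

lemma hasSum_hump (n : ℕ → ℕ) {f : RG → ℂ} (hf : Measurable f) {C : ℝ} (hC : ∀ x, ‖f x‖ ≤ C) :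
    HasSum (fun j => ((1 / 2 : ℝ) ^ j : ℂ) * ∫ x, f x ∂(unifP (n j))) (cint f (toC (hump n))) := by
  rw [cint_toC _ hf hC]
  have hi : Integrable f (hump n) :=
    Integrable.of_bound hf.aestronglyMeasurable C (Eventually.of_forall hC)
  have := hasSum_integral_measure (f := f)
    (μ := fun j => ENNReal.ofReal ((1 / 2) ^ j) • unifP (n j)) hi
  have h1 : ∀ j, ∫ x, f x ∂(ENNReal.ofReal ((1 / 2) ^ j) • unifP (n j)) =
      ((1 / 2 : ℝ) ^ j : ℂ) * ∫ x, f x ∂(unifP (n j)) := by
    intro j
    rw [integral_smul_measure, ENNReal.toReal_ofReal (by positivity)]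
    simp
  simp_rw [h1] at this
  exact this

lemma hump_mem (n : ℕ → ℕ) : toC (hump n) ∈ JPhi := by
  intro g
  have h := hasSum_hump n (measurable_Phi_mul g) (fun x => norm_Phi_le _)
  have h0 : ∀ j, ∫ x, Phi (g * x) ∂(unifP (n j)) = 0 := by
    intro j
    have := unifP_mem (n j) g
    rwa [cint_toC _ (measurable_Phi_mul g) (fun x => norm_Phi_le _)] at this
  simp_rw [h0, mul_zero] at h
  exact h.unique hasSum_zero

lemma cint_PhiD_hump {n : ℕ → ℕ} (hn : StrictMono n) (j : ℕ) :
    cint (PhiD (n j)) (toC (hump n)) = ((1 / 2 : ℝ) ^ j : ℂ) := by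
  have h := hasSum_hump n (continuous_PhiD (n j)).measurable (norm_PhiD_le (n j))
  simp_rw [integral_PhiD_unifP] at h
  have h1 : ∀ l, ((1 / 2 : ℝ) ^ l : ℂ) * (if n l = n j then (1 : ℂ) else 0) =
      if l = j then ((1 / 2 : ℝ) ^ j : ℂ) else 0 := by
    intro l
    by_cases hl : l = j
    · subst hl; simp
    · rw [if_neg (fun h => hl (hn.injective h)), if_neg hl, mul_zero]
  simp_rw [h1] at h
  exact h.unique (hasSum_ite_eq j _)

lemma not_isFinGen_JPhi : ¬ IsFinGen JPhi := by
  rintro ⟨k, σ, hσ, hgen⟩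
  set a : ℕ → ℝ := fun m => ∑ i, (σ i).variation.real (piece m)ᶜ with ha
  have hat : Tendsto a atTop (𝓝 0) := by
    have := tendsto_finsetSum (Finset.univ : Finset (Fin k))
      (fun i _ => tendsto_compl_piece (σ i).variation)
    simpa using this
  obtain ⟨n, hn, hn'⟩ := extraction_forall_of_eventually'
    (P := fun j m => a m ≤ (1 / 4 : ℝ) ^ j) (fun j => by
      have : ∀ᶠ m in atTop, a m < (1 / 4 : ℝ) ^ j :=
        hat.eventually_lt_const (by positivity)
      exact ⟨_, fun m hm => ((eventually_atTop.1 this).choose_spec m hm).le⟩)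
  obtain ⟨ν, hν⟩ := hgen _ (hump_mem n)
  set K : ℝ := ∑ i, tv (ν i) with hK
  have hK0 : 0 ≤ K := Finset.sum_nonneg (fun i _ => tv_nonneg _)
  have key : ∀ j : ℕ, (1 / 2 : ℝ) ^ j ≤ 2 * (1 / 4 : ℝ) ^ j * K := by
    intro j
    have h1 := cint_PhiD_hump hn j
    rw [hν, cint_finset_sum _ _ (continuous_PhiD (n j)).measurable (norm_PhiD_le (n j))] at h1
    have h2 : (1 / 2 : ℝ) ^ j = ‖∑ i, cint (PhiD (n j)) (conv (ν i) (σ i))‖ := by
      rw [h1]; simp
    rw [h2]
    refine (norm_sum_le _ _).trans ?_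
    rw [hK, Finset.mul_sum]
    refine Finset.sum_le_sum (fun i _ => ?_)
    rw [cint_conv _ _ (continuous_PhiD (n j)).measurable (norm_PhiD_le (n j))]
    refine norm_cint_le _ (fun x => ?_) _
    refine (norm_cint_PhiD_le (hσ i) (n j) x).trans ?_
    have h3 : (σ i).variation.real (piece (n j))ᶜ ≤ a (n j) :=
      Finset.single_le_sum (f := fun i => (σ i).variation.real (piece (n j))ᶜ)
        (fun i _ => measureReal_nonneg) (Finset.mem_univ i)
    have h4 := hn' j
    linarith
  have h5 : ∀ j : ℕ, (2 : ℝ) ^ j ≤ 2 * K := by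
    intro j
    have h6 := key j
    have h7 : (1 / 4 : ℝ) ^ j = (1 / 2) ^ j * (1 / 2) ^ j := by
      rw [← mul_pow]; norm_num
    rw [h7] at h6
    have h8 : (0 : ℝ) < (1 / 2) ^ j := by positivity
    have h9 : 1 ≤ 2 * (1 / 2 : ℝ) ^ j * K := by
      by_contra hc
      push Not at hc
      have := mul_lt_mul_of_pos_left hc h8
      linarith [this]
    have h10 : (2 : ℝ) ^ j * (1 / 2) ^ j = 1 := by rw [← mul_pow]; norm_num
    calc (2 : ℝ) ^ j = 2 ^ j * 1 := by ring
      _ ≤ 2 ^ j * (2 * (1 / 2 : ℝ) ^ j * K) := by gcongr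
      _ = 2 * K * (2 ^ j * (1 / 2) ^ j) := by ring
      _ = 2 * K := by rw [h10, mul_one]
  obtain ⟨j, hj⟩ := ((tendsto_pow_atTop_atTop_of_one_lt (by norm_num : (1 : ℝ) < 2)).eventually_gt_atTop
    (2 * K)).exists
  linarith [h5 j]

end Pool.Agent.H61
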